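import Pool.Agent.Helper44.GE.CritMass
import Pool.Agent.Helper87.GJ.Defs

/-!
# GJ, block J7: the points at which the joint criterion fails have small mass
-/

set_option autoImplicit false
open MeasureTheory Set Filter Topology
open Pool.Agent.Helper78.KD
open Pool.Agent.Helper18.KD (par idx pt pt_mem vol_idx idx_lt pt_mono len_pos t_mono)
open Pool.Agent.Helper82.FK (e)
open Pool.Agent.Helper18.GP (gp nm)
open Pool.Agent.Helper87.GP (Z fz cut S mem_S Z_abs Z_last cut_nonneg cut_le_one cut_le continuous_cut continuous_fz pow_lip)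

namespace Pool.Agent.Helper44.GJ

open Pool.Agent.GE Pool.Agent.GJ
open Pool.Agent.Helper44.GE (level alg_one choose_eps nm_ge_one sq_growth fz_diff sum_len_le Ms.vol)

/-- the sublevel bound (block J1b) for one `r` -/
structure Sub (a b : ℝ) (H r : ℕ) (p l : ℕ → ℝ) (C ζ : ℝ) : Prop where
  C0 : 0 < C
  z0 : 0 < ζ
  bd : ∀ (M : ℕ) (d : ℕ → ℤ), d M ≠ 0 → (∀ i ≤ M, |d i| ≤ H + r) → (∀ i j, i + r ≤ j → j ≤ M → |d i| ≤ H ∨ |d j| ≤ H) →
    ∀ ρ : ℝ, 0 < ρ → volume {x : ℝ | x ∈ Icc a b ∧ (∃ y ∈ Icc a b, |x - y| ≤ ζ ∧ ∀ m, l m ≤ |y - p m|) ∧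
        |∑ i ∈ Finset.range (M + 1), (d i : ℝ) * x ^ i| ≤ ρ} ≤
      ENNReal.ofReal (C * (ρ * a ^ (-(M : ℝ))) ^ (1 / ((KJ a H : ℝ) + 1)))

/-! ### weights -/

theorem sum_shift (H : ℕ) (c : ℤ → ℂ) (s : ℤ) (A : Finset ℤ) :
    ∑ k ∈ A, ‖(if k - s ∈ Finset.Icc (-(H : ℤ)) H then c (k - s) else 0)‖ ≤ nm H c := by
  classical
  unfold nm
  have h1 : ∑ k ∈ A, ‖(if k - s ∈ Finset.Icc (-(H : ℤ)) H then c (k - s) else 0)‖
      = ∑ k ∈ A.filter (fun k => k - s ∈ Finset.Icc (-(H : ℤ)) H), ‖c (k - s)‖ := by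
    rw [Finset.sum_filter]
    refine Finset.sum_congr rfl fun k _ => ?_
    split_ifs <;> simp
  rw [h1]
  have h2 : ∑ k ∈ A.filter (fun k => k - s ∈ Finset.Icc (-(H : ℤ)) H), ‖c (k - s)‖
      = ∑ l ∈ (A.filter (fun k => k - s ∈ Finset.Icc (-(H : ℤ)) H)).image (fun k => k - s), ‖c l‖ := by
    rw [Finset.sum_image]
    intro x _ y _ hxy
    simpa using hxy
  rw [h2]
  refine Finset.sum_le_sum_of_subset_of_nonneg ?_ fun _ _ _ => norm_nonneg _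
  intro l hl
  obtain ⟨k, hk, rfl⟩ := Finset.mem_image.1 hl
  exact (Finset.mem_filter.1 hk).2

theorem sum_cw (H : ℕ) (c : ℤ → ℂ) (h : ℕ → ℤ) (j i : ℕ) (A : Finset ℤ) : ∑ k ∈ A, ‖cw H c h j i k‖ ≤ nm H c := by
  unfold cw
  exact sum_shift H c _ A

/-- weight of a string -/
noncomputable def wJ (H : ℕ) (c : ℤ → ℂ) (h : ℕ → ℤ) (j : ℕ) {t : ℕ} (b : Fin (t + 1) → ℤ) : ℝ :=
  ∏ i : Fin (t + 1), ‖cw H c h j i (b i)‖

theorem wJ_nonneg (H : ℕ) (c : ℤ → ℂ) (h : ℕ → ℤ) (j : ℕ) {t : ℕ} (b : Fin (t + 1) → ℤ) : 0 ≤ wJ H c h j b :=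
  Finset.prod_nonneg fun _ _ => norm_nonneg _

theorem sum_wJ (H Hb : ℕ) (c : ℤ → ℂ) (h : ℕ → ℤ) (j t : ℕ) : ∑ b ∈ Z Hb t, wJ H c h j b ≤ nm H c ^ (t + 1) := by
  unfold Z wJ
  rw [← Finset.prod_univ_sum (S Hb t) (fun (i : Fin (t + 1)) k => ‖cw H c h j i k‖)]
  calc _ ≤ ∏ _i : Fin (t + 1), nm H c := by
        refine Finset.prod_le_prod (fun i _ => Finset.sum_nonneg fun _ _ => norm_nonneg _) fun i _ => ?_
        exact sum_cw H c h j i _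
    _ = _ := by simp

/-- the entries of a string with a nonzero weight -/
theorem wJ_small {H r : ℕ} {c : ℤ → ℂ} {h : ℕ → ℤ} (hh : h ∈ Wn r) {j t : ℕ} {b : Fin (t + 1) → ℤ} (hw : wJ H c h j b ≠ 0)
    (i : Fin (t + 1)) (hi : (i : ℕ) < j ∨ j + r ≤ i) : |b i| ≤ H := by
  have h1 : ‖cw H c h j i (b i)‖ ≠ 0 := (Finset.prod_ne_zero_iff.1 hw) i (Finset.mem_univ i)
  have h2 : (if j ≤ (i : ℕ) then h ((i : ℕ) - j) else 0) = 0 := by
    split_ifs with h3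
    · exact hh.2 _ (by omega)
    · rfl
  unfold cw at h1
  rw [h2, sub_zero] at h1
  by_cases h3 : b i ∈ Finset.Icc (-(H : ℤ)) H
  · rw [Finset.mem_Icc] at h3
    exact abs_le.2 h3
  · rw [if_neg h3] at h1
    simp at h1

/-! ### measures -/

/-- the mass of a set against the length -/
theorem mass_set {T : Tr} {m : ℕ → ℕ → ℝ} (hm : Ms T m) (k : ℕ) {Y : Set ℝ} {E : ℝ} (hE : 0 ≤ E) {G : Set ℝ}
    (hcell : ∀ i < T.N k, (∃ x ∈ T.cell k i, x ∈ Y) → T.cell k i ⊆ G)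
    (hmass : ∀ i < T.N k, m k i ≤ E * T.len k i) :
    volume {w : ℝ | w ∈ Ico (0 : ℝ) 1 ∧ pt T m w ∈ Y} ≤ ENNReal.ofReal E * volume G := by
  classical
  set A := (Finset.range (T.N k)).filter (fun i => ∃ x ∈ T.cell k i, x ∈ Y) with hA
  have h1 : {w : ℝ | w ∈ Ico (0 : ℝ) 1 ∧ pt T m w ∈ Y} ⊆ {w : ℝ | w ∈ Ico (0 : ℝ) 1 ∧ idx T m k w ∈ A} := by
    rintro w ⟨hw, hf⟩
    refine ⟨hw, ?_⟩
    rw [hA, Finset.mem_filter, Finset.mem_range]
    exact ⟨idx_lt k w, pt T m w, pt_mem hm.zero hm.nn hm.sum k hw.1 hw.2, hf⟩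
  refine (measure_mono h1).trans ((Ms.vol hm k A).trans ?_)
  have h2 : ∑ i ∈ A, ENNReal.ofReal (m k i) ≤ ∑ i ∈ A, ENNReal.ofReal E * ENNReal.ofReal (T.len k i) := by
    refine Finset.sum_le_sum fun i hi => ?_
    have hi' := Finset.mem_range.1 (Finset.mem_filter.1 hi).1
    rw [← ENNReal.ofReal_mul hE]
    exact ENNReal.ofReal_le_ofReal (hmass i hi')
  refine h2.trans ?_
  rw [← Finset.mul_sum]
  refine mul_le_mul_right ?_ _
  refine sum_len_le T k (Finset.filter_subset _ _) fun i hi => ?_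
  have h3 := Finset.mem_filter.1 hi
  exact hcell i (Finset.mem_range.1 h3.1) h3.2

/-- the mass of a short interval -/
theorem mass_int {a α ε C Cl Cm q : ℝ} (ha : 1 < a) (haα : a ≤ α) (hε : 0 ≤ ε) (hε1 : ε ≤ 1) (hC : 0 ≤ C) (hCl : 1 ≤ Cl)
    (hCm : 0 ≤ Cm) (hq : 0 ≤ q) (hq1 : q ≤ 1 / 4)
    {T : Tr} {m : ℕ → ℕ → ℝ} {nk : ℕ → ℕ} (hm : Ms T m) (h0 : nk 0 = 0)
    (hn : Tendsto nk atTop atTop) (hr : ∀ k, (nk (k + 1) : ℝ) ≤ (1 + ε) * nk k + C)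
    (hlen : ∀ k i, i < T.N k → T.len k i ≤ Cl * (α ^ (nk k))⁻¹)
    (hmass : ∀ k i, i < T.N k → m k i ≤ Cm * T.len k i * a ^ (q * nk k)) {p l : ℝ} (hl : 0 < l) (hl1 : l ≤ 1) :
    volume {w : ℝ | w ∈ Ico (0 : ℝ) 1 ∧ pt T m w ∈ Ioo (p - l) (p + l)} ≤
      ENNReal.ofReal (4 * Cm * a ^ (q * C) * Cl * √l) := by
  have ha0 : 0 < a := by linarith
  have hα : 1 < α := lt_of_lt_of_le ha haα
  have hα0 : 0 < α := by linarith
  have hX1 : 1 ≤ Cl / l := by rw [le_div_iff₀ hl]; linarith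
  obtain ⟨k, hk1, hk2⟩ := level (κ := q) ha hα hC hX1 hq hε h0 hn hr
  have hla : 0 < Real.log a := Real.log_pos ha
  have hlα : 0 < Real.log α := Real.log_pos hα
  have hlr : Real.log a / Real.log α ≤ 1 := by
    rw [div_le_one hlα]
    exact Real.log_le_log ha0 haα
  have hp : q * (1 + ε) * (Real.log a / Real.log α) ≤ 1 / 2 := by
    have h1 : q * (1 + ε) ≤ 1 / 2 := by nlinarith
    have h2 : 0 ≤ Real.log a / Real.log α := by positivity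
    calc q * (1 + ε) * (Real.log a / Real.log α) ≤ q * (1 + ε) * 1 :=
          mul_le_mul_of_nonneg_left hlr (by positivity)
      _ ≤ 1 / 2 := by linarith
  have hE0 : 0 ≤ Cm * (a ^ (q * C) * √(Cl / l)) := by positivity
  have hkey := mass_set hm k (Y := Ioo (p - l) (p + l)) hE0 (G := Icc (p - 2 * l) (p + 2 * l)) ?_ ?_
  · refine hkey.trans ?_
    rw [Real.volume_Icc, ← ENNReal.ofReal_mul hE0]
    refine ENNReal.ofReal_le_ofReal ?_
    have h3 : √(Cl / l) * l = √Cl * √l := by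
      rw [Real.sqrt_div (by linarith)]
      have h4 : l = √l * √l := (Real.mul_self_sqrt hl.le).symm
      have h5 : √l ≠ 0 := (Real.sqrt_pos.2 hl).ne'
      field_simp
      linarith [h4]
    have h4 : √Cl ≤ Cl := by
      rw [Real.sqrt_le_left (by linarith)]
      nlinarith
    calc Cm * (a ^ (q * C) * √(Cl / l)) * (p + 2 * l - (p - 2 * l)) = 4 * Cm * a ^ (q * C) * (√(Cl / l) * l) := by ring
      _ = 4 * Cm * a ^ (q * C) * (√Cl * √l) := by rw [h3]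
      _ ≤ 4 * Cm * a ^ (q * C) * (Cl * √l) := by gcongr
      _ = _ := by ring
  · intro i hi hex x hx
    obtain ⟨y, hy, hfy⟩ := hex
    have h5 : |x - y| ≤ Cl * (α ^ (nk k))⁻¹ := by
      have h6 : |x - y| ≤ T.len k i := by
        unfold Tr.len
        rw [abs_le]
        constructor <;> linarith [hx.1, hx.2, hy.1, hy.2]
      exact h6.trans (hlen k i hi)
    have h6 : Cl * (α ^ (nk k))⁻¹ ≤ l := by
      rw [← div_eq_mul_inv, div_le_iff₀ (by positivity)]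
      rw [div_le_iff₀ hl] at hk1
      linarith
    have h7 := abs_le.1 (h5.trans h6)
    exact ⟨by linarith [hfy.1, h7.1], by linarith [hfy.2, h7.2]⟩
  · intro i hi
    refine (hmass k i hi).trans ?_
    have h4 := (len_pos T k hi).le
    have h5 : (Cl / l) ^ (q * (1 + ε) * (Real.log a / Real.log α)) ≤ √(Cl / l) := by
      rw [Real.sqrt_eq_rpow]
      exact Real.rpow_le_rpow_of_exponent_le hX1 hp
    calc Cm * T.len k i * a ^ (q * nk k) = Cm * a ^ (q * nk k) * T.len k i := by ring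
      _ ≤ Cm * (a ^ (q * C) * (Cl / l) ^ (q * (1 + ε) * (Real.log a / Real.log α))) * T.len k i := by gcongr
      _ ≤ _ := by gcongr

/-- sublevel sets of the polynomials of the strings with a nonzero weight -/
theorem sub_string {a b : ℝ} {H r : ℕ} {p l : ℕ → ℝ} {C ζ : ℝ} (hS : Sub a b H r p l C ζ)
    {c : ℤ → ℂ} {h : ℕ → ℤ} (hh : h ∈ Wn r) {j t : ℕ} {β : Fin (t + 1) → ℤ} (hβ : β ∈ Z (H + r) t)
    (hw : wJ H c h j β ≠ 0) {ρ : ℝ} (hρ : 0 < ρ) :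
    volume {x : ℝ | x ∈ Icc a b ∧ (∃ y ∈ Icc a b, |x - y| ≤ ζ ∧ ∀ m, l m ≤ |y - p m|) ∧ |fz β x| ≤ ρ} ≤
      ENNReal.ofReal (C * (ρ * a ^ (-(t : ℝ))) ^ (1 / ((KJ a H : ℝ) + 1))) := by
  set d : ℕ → ℤ := fun i => if hi : i < t + 1 then β ⟨i, hi⟩ else 0 with hd
  have hdt : d t = β (Fin.last t) := by
    simp only [hd, dif_pos (Nat.lt_succ_self t)]
    rfl
  have h1 : d t ≠ 0 := by
    intro h0
    have h2 := Z_last hβ
    rw [← hdt, h0] at h2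
    norm_num at h2
  have h2 : ∀ i ≤ t, |d i| ≤ (H : ℤ) + r := fun i hi => by
    simp only [hd, dif_pos (Nat.lt_succ_of_le hi)]
    have := Z_abs hβ ⟨i, Nat.lt_succ_of_le hi⟩
    push_cast at this
    exact_mod_cast this
  have h3 : ∀ x : ℝ, ∑ i ∈ Finset.range (t + 1), (d i : ℝ) * x ^ i = fz β x := fun x => by
    unfold fz
    rw [Finset.sum_range]
    refine Finset.sum_congr rfl fun i _ => ?_
    simp only [hd, dif_pos i.2, Fin.eta]
  have h4 : ∀ i ≤ t, i < j ∨ j + r ≤ i → |d i| ≤ H := fun i hi hij => by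
    simp only [hd, dif_pos (Nat.lt_succ_of_le hi)]
    exact wJ_small hh hw ⟨i, Nat.lt_succ_of_le hi⟩ hij
  have h5 : ∀ i j', i + r ≤ j' → j' ≤ t → |d i| ≤ H ∨ |d j'| ≤ H := by
    intro i j' hij hj'
    by_cases h6 : i < j
    · left
      exact h4 i (by omega) (Or.inl h6)
    · right
      exact h4 j' hj' (Or.inr (by omega))
  have h6 := hS.bd t d h1 h2 h5 ρ hρ
  simp_rw [h3] at h6
  exact h6

/-- the integral of one string -/
theorem string_int {a b α ε C X Cl Cm Cε : ℝ} (ha : 1 < a) (hab : a < b) (haα : a ≤ α) {H r : ℕ} {pp l : ℕ → ℝ} {C₁ ζ : ℝ}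
    (hS : Sub a b H r pp l C₁ ζ) (hCε : ∀ t : ℕ, ((t : ℝ) + 1) ^ 2 ≤ Cε * (1 + ε) ^ t) (hCε1 : 1 ≤ Cε) (hCζ : 1 ≤ Cε * ζ)
    (hε : 0 < ε) (hC : 0 ≤ C) (hCl : 1 ≤ Cl) (hCm : 0 ≤ Cm)
    {T : Tr} {m : ℕ → ℕ → ℝ} {nk : ℕ → ℕ} (hm : Ms T m) (hT : ∀ k i, i ≤ T.N k → T.t k i ∈ Icc α b) (h0 : nk 0 = 0)
    (hn : Tendsto nk atTop atTop) (hr : ∀ k, (nk (k + 1) : ℝ) ≤ (1 + ε) * nk k + C)
    (hlen : ∀ k i, i < T.N k → T.len k i ≤ Cl * (α ^ (nk k))⁻¹)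
    (hmass : ∀ k i, i < T.N k → m k i ≤ Cm * T.len k i * a ^ (kJ a H * nk k))
    {Y : Set ℝ} (hY : ∀ y ∉ Y, ∀ m, l m ≤ |y - pp m|)
    {c : ℤ → ℂ} {h : ℕ → ℤ} (hh : h ∈ Wn r) {j J t : ℕ} {β : Fin (t + 1) → ℤ} (hβ : β ∈ Z (H + r) t) (hw : wJ H c h j β ≠ 0)
    (hX : X = (((H + r : ℕ) : ℝ) + 1) * Cε * Cl * ((1 + ε) * b) ^ t * a ^ ((J : ℝ) / 2)) :
    ∫⁻ w in {w : ℝ | w ∈ Ico (0 : ℝ) 1 ∧ pt T m w ∉ Y}, ENNReal.ofReal (cut ((a ^ J)⁻¹) (fz β (pt T m w))) ≤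
      ENNReal.ofReal (Cm * (a ^ (kJ a H * C) * X ^ (kJ a H * (1 + ε) * (Real.log a / Real.log α)))) *
        ENNReal.ofReal (C₁ * (2 * a ^ (((t : ℝ) - J) / 2) * a ^ (-(t : ℝ))) ^ (1 / ((KJ a H : ℝ) + 1))) +
      ENNReal.ofReal (a ^ (-((t : ℝ) + J) / 2)) := by
  have ha0 : 0 < a := by linarith
  have hα : 1 < α := lt_of_lt_of_le ha haα
  have hb1 : 1 < b := ha.trans hab
  have hb0 : 0 < b := by linarith
  set Hb : ℕ := H + r with hHb
  set η : ℝ := (a ^ J)⁻¹ with hη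
  have hη0 : 0 < η := by positivity
  set τ : ℝ := a ^ (((t : ℝ) - J) / 2) with hτ
  have hτ0 : 0 < τ := Real.rpow_pos_of_pos ha0 _
  have hη2 : η = a ^ (-(J : ℝ)) := by rw [hη, Real.rpow_neg ha0.le, Real.rpow_natCast]
  have ht0 : (0 : ℝ) ≤ t := Nat.cast_nonneg t
  have hJ0 : (0 : ℝ) ≤ J := Nat.cast_nonneg J
  have hητ : η ≤ τ := by
    rw [hη2, hτ]
    exact Real.rpow_le_rpow_of_exponent_le ha.le (by linarith)
  have hητ2 : η / τ = a ^ (-((t : ℝ) + J) / 2) := by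
    rw [hη2, hτ, ← Real.rpow_sub ha0]
    congr 1
    ring
  have hkE0 : 0 ≤ kJ a H := by unfold kJ; positivity
  have hKb : (1 : ℝ) ≤ (Hb : ℝ) + 1 := by linarith [(Nat.cast_nonneg Hb : (0 : ℝ) ≤ Hb)]
  have h1b : 1 ≤ (1 + ε) * b := by nlinarith
  have g3 : 1 ≤ ((1 + ε) * b) ^ t := one_le_pow₀ h1b
  have g4 : 1 ≤ a ^ ((J : ℝ) / 2) := Real.one_le_rpow ha.le (by positivity)
  have hXC : Cε * Cl ≤ X := by
    rw [hX]
    have g5 : Cε * Cl ≤ ((Hb : ℝ) + 1) * (Cε * Cl) := le_mul_of_one_le_left (by positivity) hKb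
    have g6 : ((Hb : ℝ) + 1) * (Cε * Cl) ≤ ((Hb : ℝ) + 1) * (Cε * Cl) * (((1 + ε) * b) ^ t * a ^ ((J : ℝ) / 2)) :=
      le_mul_of_one_le_right (by positivity) (one_le_mul_of_one_le_of_one_le g3 g4)
    refine (g5.trans g6).trans (le_of_eq ?_)
    ring
  have hX1 : 1 ≤ X := (one_le_mul_of_one_le_of_one_le hCε1 hCl).trans hXC
  obtain ⟨k, hk1, hk2⟩ := level (κ := kJ a H) ha hα hC hX1 hkE0 hε.le h0 hn hr
  -- the indicator
  have h1 : ∫⁻ w in {w : ℝ | w ∈ Ico (0 : ℝ) 1 ∧ pt T m w ∉ Y}, ENNReal.ofReal (cut η (fz β (pt T m w))) ≤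
      ∫⁻ w in {w : ℝ | w ∈ Ico (0 : ℝ) 1 ∧ pt T m w ∉ Y},
        (({w : ℝ | |fz β (pt T m w)| ≤ τ}.indicator (fun _ => (1 : ENNReal)) w) + ENNReal.ofReal (η / τ)) := by
    refine lintegral_mono fun w => ?_
    exact cut_le hη0 hητ (fz β (pt T m w))
  refine h1.trans ?_
  have hms : MeasurableSet {w : ℝ | |fz β (pt T m w)| ≤ τ} :=
    measurableSet_le ((continuous_fz β).measurable.comp (pt_mono (T := T) (m := m)).measurable).abs measurable_const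
  have hvol1 : volume {w : ℝ | w ∈ Ico (0 : ℝ) 1 ∧ pt T m w ∉ Y} ≤ 1 := by
    refine (measure_mono (show {w : ℝ | w ∈ Ico (0 : ℝ) 1 ∧ pt T m w ∉ Y} ⊆ Ico (0 : ℝ) 1 from fun w hw => hw.1)).trans ?_
    rw [Real.volume_Ico, sub_zero, ENNReal.ofReal_one]
  rw [lintegral_add_right _ measurable_const, lintegral_indicator hms, setLIntegral_const, setLIntegral_const, one_mul,
    Measure.restrict_apply hms, hητ2]
  refine add_le_add ?_ ((mul_le_mul_right hvol1 _).trans (le_of_eq (mul_one _)))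
  have h2 : {w : ℝ | |fz β (pt T m w)| ≤ τ} ∩ {w : ℝ | w ∈ Ico (0 : ℝ) 1 ∧ pt T m w ∉ Y} =
      {w : ℝ | w ∈ Ico (0 : ℝ) 1 ∧ pt T m w ∈ {x : ℝ | x ∉ Y ∧ |fz β x| ≤ τ}} := by
    ext x
    simp only [Set.mem_inter_iff, Set.mem_ofPred_eq]
    tauto
  rw [h2]
  have hE0 : 0 ≤ Cm * (a ^ (kJ a H * C) * X ^ (kJ a H * (1 + ε) * (Real.log a / Real.log α))) := by positivity
  have h3 := mass_set hm k (Y := {x : ℝ | x ∉ Y ∧ |fz β x| ≤ τ}) hE0
    (G := {x : ℝ | x ∈ Icc a b ∧ (∃ y ∈ Icc a b, |x - y| ≤ ζ ∧ ∀ m, l m ≤ |y - pp m|) ∧ |fz β x| ≤ 2 * τ}) ?_ ?_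
  · refine h3.trans ?_
    refine mul_le_mul_right (sub_string hS hh hβ hw (by positivity)) _
  · intro i hi hex x hx
    obtain ⟨y, hy, hyY, hfy⟩ := hex
    have hti := hT k i hi.le
    have hti1 := hT k (i + 1) hi
    have hx1 : α ≤ x ∧ x ≤ b := ⟨hti.1.trans hx.1, hx.2.trans hti1.2⟩
    have hy1 : α ≤ y ∧ y ≤ b := ⟨hti.1.trans hy.1, hy.2.trans hti1.2⟩
    have h4 := fz_diff hb1.le (Z_abs hβ) (x := x) (y := y) (by linarith [hx1.1]) hx1.2 (by linarith [hy1.1]) hy1.2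
    have h5 : |x - y| ≤ Cl * (α ^ (nk k))⁻¹ := by
      have h6 : |x - y| ≤ T.len k i := by
        unfold Tr.len
        rw [abs_le]
        constructor <;> linarith [hx.1, hx.2, hy.1, hy.2]
      exact h6.trans (hlen k i hi)
    have hα0 : 0 < α ^ (nk k) := by positivity
    have hζ : Cl * (α ^ (nk k))⁻¹ ≤ ζ := by
      rw [← div_eq_mul_inv, div_le_iff₀ hα0]
      have h6 : Cε * Cl ≤ α ^ (nk k) := hXC.trans hk1
      have h7 : 0 < ζ := hS.z0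
      calc Cl = 1 * Cl := (one_mul _).symm
        _ ≤ (Cε * ζ) * Cl := mul_le_mul_of_nonneg_right hCζ (by linarith)
        _ = ζ * (Cε * Cl) := by ring
        _ ≤ ζ * α ^ (nk k) := mul_le_mul_of_nonneg_left h6 h7.le
    refine ⟨⟨haα.trans hx1.1, hx1.2⟩, ⟨y, ⟨haα.trans hy1.1, hy1.2⟩, h5.trans hζ, hY y hyY⟩, ?_⟩
    have h6 : (Hb : ℝ) * ((t : ℝ) + 1) ^ 2 * b ^ t * |x - y| ≤ τ := by
      have h7 : (Hb : ℝ) * ((t : ℝ) + 1) ^ 2 * b ^ t * |x - y| ≤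
          ((Hb : ℝ) + 1) * (Cε * (1 + ε) ^ t) * b ^ t * (Cl * (α ^ (nk k))⁻¹) := by
        have h8 := hCε t
        have h9 : (Hb : ℝ) ≤ (Hb : ℝ) + 1 := by linarith
        gcongr
      have h8 : ((Hb : ℝ) + 1) * (Cε * (1 + ε) ^ t) * b ^ t * (Cl * (α ^ (nk k))⁻¹) =
          X * a ^ (-(J : ℝ) / 2) * (α ^ (nk k))⁻¹ := by
        have h9 : a ^ ((J : ℝ) / 2) * a ^ (-(J : ℝ) / 2) = 1 := by
          rw [← Real.rpow_add ha0, show (J : ℝ) / 2 + -(J : ℝ) / 2 = 0 by ring, Real.rpow_zero]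
        rw [hX, mul_pow]
        calc _ = ((Hb : ℝ) + 1) * Cε * Cl * ((1 + ε) ^ t * b ^ t) * 1 * (α ^ nk k)⁻¹ := by ring
          _ = ((Hb : ℝ) + 1) * Cε * Cl * ((1 + ε) ^ t * b ^ t) * (a ^ ((J : ℝ) / 2) * a ^ (-(J : ℝ) / 2)) *
              (α ^ nk k)⁻¹ := by rw [h9]
          _ = _ := by ring
      have h9 : X * a ^ (-(J : ℝ) / 2) * (α ^ (nk k))⁻¹ ≤ a ^ (-(J : ℝ) / 2) := by
        have h10 : X * (α ^ (nk k))⁻¹ ≤ 1 := by
          rw [← div_eq_mul_inv, div_le_one hα0]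
          exact hk1
        have h11 : 0 < a ^ (-(J : ℝ) / 2) := Real.rpow_pos_of_pos ha0 _
        calc X * a ^ (-(J : ℝ) / 2) * (α ^ (nk k))⁻¹ = (X * (α ^ (nk k))⁻¹) * a ^ (-(J : ℝ) / 2) := by ring
          _ ≤ 1 * a ^ (-(J : ℝ) / 2) := by gcongr
          _ = _ := one_mul _
      have h10 : a ^ (-(J : ℝ) / 2) ≤ τ := by
        rw [hτ]
        exact Real.rpow_le_rpow_of_exponent_le ha.le (by linarith)
      rw [h8] at h7
      exact h7.trans (h9.trans h10)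
    have h7 : |fz β x| ≤ |fz β x - fz β y| + |fz β y| := by
      have := abs_add_le (fz β x - fz β y) (fz β y)
      simpa using this
    linarith
  · intro i hi
    refine (hmass k i hi).trans ?_
    have h4 := (len_pos T k hi).le
    calc Cm * T.len k i * a ^ (kJ a H * nk k) = Cm * a ^ (kJ a H * nk k) * T.len k i := by ring
      _ ≤ Cm * (a ^ (kJ a H * C) * X ^ (kJ a H * (1 + ε) * (Real.log a / Real.log α))) * T.len k i := by gcongr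

/-- the statement of block J1b at `a`, `b`, `H` -/
def SubJ (a b : ℝ) (H : ℕ) : Prop := ∀ (r : ℕ) (η : ℝ), 0 < η →
    ∃ p l : ℕ → ℝ, (∀ m, 0 < l m) ∧ Summable (fun m => √(l m)) ∧ ∑' m, √(l m) ≤ η ∧ ∃ C ζ : ℝ, 0 < C ∧ 0 < ζ ∧
    ∀ (M : ℕ) (d : ℕ → ℤ), d M ≠ 0 → (∀ i ≤ M, |d i| ≤ H + r) → (∀ i j, i + r ≤ j → j ≤ M → |d i| ≤ H ∨ |d j| ≤ H) →
    ∀ ρ : ℝ, 0 < ρ → volume {x : ℝ | x ∈ Icc a b ∧ (∃ y ∈ Icc a b, |x - y| ≤ ζ ∧ ∀ m, l m ≤ |y - p m|) ∧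
        |∑ i ∈ Finset.range (M + 1), (d i : ℝ) * x ^ i| ≤ ρ} ≤
      ENNReal.ofReal (C * (ρ * a ^ (-(M : ℝ))) ^ (1 / ((KJ a H : ℝ) + 1)))

/-- J7, from J1b -/
theorem crit_massJ_of {a b : ℝ} (ha : 1 < a) (hab : a < b) {H : ℕ} (hJ1 : SubJ a b H) {c : ℤ → ℂ} (hc : c 0 = 1)
    (hW : nm H c < a ^ (kJ a H)) :
    ∃ α lam : ℝ, a < α ∧ α < b ∧ 0 < lam ∧ lam < 1 ∧ ∃ (U : ℕ → Set ℝ) (Φ : ℕ → ℝ), (∀ r, IsOpen (U r)) ∧ (∀ r, 0 < Φ r) ∧
      ∀ (T : Tr) (m : ℕ → ℕ → ℝ) (nk : ℕ → ℕ) (Cl Cm : ℝ), Ms T m → (∀ k i, i ≤ T.N k → T.t k i ∈ Icc α b) → nk 0 = 0 →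
        Tendsto nk atTop atTop → (∀ k, nk k ≤ nk (k + 1)) → (∀ ε > 0, ∃ C : ℝ, ∀ k, (nk (k + 1) : ℝ) ≤ (1 + ε) * nk k + C) →
        (∀ k i, i < T.N k → T.len k i ≤ Cl * (α ^ (nk k))⁻¹) →
        (∀ k i, i < T.N k → m k i ≤ Cm * T.len k i * a ^ (kJ a H * nk k)) →
        ∃ Ψ : ℝ, 0 < Ψ ∧ ∀ r : ℕ,
          volume {w | w ∈ Ico (0 : ℝ) 1 ∧ pt T m w ∈ U r} ≤ ENNReal.ofReal (Ψ * (1 / 2) ^ r) ∧
          ∀ h ∈ Wn r, ∀ j J L : ℕ,
            ∫⁻ w in {w | w ∈ Ico (0 : ℝ) 1 ∧ pt T m w ∉ U r},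
                ENNReal.ofReal (∑ t ∈ Finset.range L, QJ a H (H + r) c h j J t (pt T m w)) ≤
              ENNReal.ofReal (Ψ * Φ r * lam ^ J) := by
  have ha0 : 0 < a := by linarith
  have hb0 : 0 < b := by linarith
  have hla : 0 < Real.log a := Real.log_pos ha
  set W := nm H c with hWd
  have hW1 : 1 ≤ W := nm_ge_one hc
  have hW0 : 0 < W := by linarith
  set κ : ℝ := 1 / ((KJ a H : ℝ) + 1) with hκ
  have hK0 : (0 : ℝ) ≤ (KJ a H : ℝ) := Nat.cast_nonneg _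
  have hκ0 : 0 < κ := by positivity
  have hκ1 : κ ≤ 1 := by rw [hκ, div_le_one (by positivity)]; linarith
  set q : ℝ := kJ a H with hq
  have hqκ : q = κ / 4 := by rw [hq, hκ, kJ]; field_simp
  have hq0 : 0 < q := by rw [hqκ]; positivity
  have hq4 : q ≤ 1 / 4 := by rw [hqκ]; linarith
  obtain ⟨ε, hε, hε1, haα, hWr⟩ := choose_eps ha hab hW0 hW
  set α : ℝ := b / (1 + ε) with hα
  have hα1 : 1 < α := ha.trans haα
  have hlα : 0 < Real.log α := Real.log_pos hα1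
  have hαb : α < b := by
    rw [hα, div_lt_iff₀ (by positivity)]
    nlinarith
  set p : ℝ := q * (1 + ε) * (Real.log a / Real.log α) with hp
  have hp0 : 0 ≤ p := by positivity
  have hlr : Real.log a / Real.log α ≤ 1 := by
    rw [div_le_one hlα]
    exact Real.log_le_log ha0 haα.le
  have hpκ : p ≤ κ / 2 := by
    have h1 : p ≤ q * (1 + ε) * 1 := by rw [hp]; gcongr
    rw [mul_one] at h1
    rw [hqκ] at h1
    nlinarith
  have e4q : -(4 * q) / 2 = -κ / 2 := by rw [hqκ]; ring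
  rw [e4q] at hWr
  set rt : ℝ := ((1 + ε) * b) ^ p * a ^ (-κ / 2) with hrt
  set rJ : ℝ := a ^ (p / 2 - κ / 2) with hrJ
  have hrt0 : 0 < rt := by positivity
  have hrJ0 : 0 < rJ := by positivity
  have hrJ1 : rJ < 1 := Real.rpow_lt_one_of_one_lt_of_neg ha (by linarith)
  have h1b : 1 ≤ (1 + ε) * b := by nlinarith [ha.trans hab]
  have hhalf : a ^ (-(1 : ℝ) / 2) ≤ a ^ (-κ / 2) := Real.rpow_le_rpow_of_exponent_le ha.le (by linarith)
  have hrt2 : a ^ (-(1 : ℝ) / 2) ≤ rt := by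
    have h2 : 1 ≤ ((1 + ε) * b) ^ p := Real.one_le_rpow h1b hp0
    have h3 : 0 < a ^ (-κ / 2) := Real.rpow_pos_of_pos ha0 _
    rw [hrt]
    nlinarith
  have hrJ2 : a ^ (-(1 : ℝ) / 2) ≤ rJ := by
    refine hhalf.trans ?_
    rw [hrJ]
    exact Real.rpow_le_rpow_of_exponent_le ha.le (by linarith)
  obtain ⟨Cε, hCε1, hCε⟩ := sq_growth hε
  choose pp l hl hsum htsum C₁ ζ hC₁0 hζ0 hbd using fun r : ℕ => hJ1 r ((1 / 2) ^ r) (by positivity)
  have hSub : ∀ r, Sub a b H r (pp r) (l r) (C₁ r) (ζ r) := fun r => ⟨hC₁0 r, hζ0 r, hbd r⟩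
  set Cr : ℕ → ℝ := fun r => Cε * max 1 (1 / ζ r) with hCr
  have hCr1 : ∀ r, 1 ≤ Cr r := fun r => one_le_mul_of_one_le_of_one_le hCε1 (le_max_left _ _)
  have hCrε : ∀ r (t : ℕ), ((t : ℝ) + 1) ^ 2 ≤ Cr r * (1 + ε) ^ t := fun r t => (hCε t).trans (by
    refine mul_le_mul_of_nonneg_right ?_ (by positivity)
    exact le_mul_of_one_le_right (by linarith) (le_max_left _ _))
  have hCrζ : ∀ r, 1 ≤ Cr r * ζ r := fun r => by
    have h1 : 1 / ζ r * ζ r = 1 := by have := (hζ0 r).ne'; field_simp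
    have h2 : 1 / ζ r * ζ r ≤ max 1 (1 / ζ r) * ζ r := mul_le_mul_of_nonneg_right (le_max_right _ _) (hζ0 r).le
    have h3 : 1 ≤ max 1 (1 / ζ r) * ζ r := by linarith
    calc (1 : ℝ) ≤ Cε * (max 1 (1 / ζ r) * ζ r) := one_le_mul_of_one_le_of_one_le hCε1 h3
      _ = _ := by simp only [hCr]; ring
  refine ⟨α, rJ, haα, hαb, hrJ0, hrJ1, fun r => ⋃ m, Ioo (pp r m - l r m) (pp r m + l r m),
    fun r => max 1 (C₁ r) * ((((H + r : ℕ) : ℝ) + 1) * Cr r) ^ p, fun r => isOpen_iUnion fun m => isOpen_Ioo,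
    fun r => by have := hCr1 r; positivity, ?_⟩
  intro T m nk Cl Cm hm hT h0 hn _ hr hlen hmass
  obtain ⟨C, hC⟩ := hr ε hε
  set C' := max C 0 with hC'
  set Cl' := max Cl 1 with hCl'
  set Cm' := max Cm 0 with hCm'
  have hC'0 : 0 ≤ C' := le_max_right _ _
  have hCl1 : 1 ≤ Cl' := le_max_right _ _
  have hCm0 : 0 ≤ Cm' := le_max_right _ _
  have hr' : ∀ k, (nk (k + 1) : ℝ) ≤ (1 + ε) * nk k + C' := fun k => (hC k).trans (by gcongr; exact le_max_left _ _)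
  have hlen' : ∀ k i, i < T.N k → T.len k i ≤ Cl' * (α ^ (nk k))⁻¹ := fun k i hi => (hlen k i hi).trans (by
    have : 0 < (α ^ (nk k))⁻¹ := by positivity
    exact mul_le_mul_of_nonneg_right (le_max_left _ _) this.le)
  have hmass' : ∀ k i, i < T.N k → m k i ≤ Cm' * T.len k i * a ^ (kJ a H * nk k) := fun k i hi => (hmass k i hi).trans (by
    have h1 := (len_pos T k hi).le
    have : 0 < a ^ (kJ a H * nk k) := by positivity
    gcongr
    exact le_max_left _ _)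
  set P : ℝ := Cm' * a ^ (q * C') * Cl' ^ p * 2 ^ κ with hP
  have hP0 : 0 ≤ P := by positivity
  set D : ℝ := 4 * Cm' * a ^ (q * C') * Cl' with hD
  have hD0 : 0 ≤ D := by positivity
  have h1W : 0 < 1 - W * rt := by linarith
  have hΨ0 : 0 < W * (P + 1) / (1 - W * rt) := by positivity
  refine ⟨W * (P + 1) / (1 - W * rt) + D, by positivity, ?_⟩
  intro r
  have hY : ∀ y ∉ ⋃ m, Ioo (pp r m - l r m) (pp r m + l r m), ∀ m, l r m ≤ |y - pp r m| := by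
    intro y hy m'
    by_contra hcon
    push Not at hcon
    apply hy
    rw [mem_iUnion]
    have := abs_lt.1 hcon
    exact ⟨m', by linarith [this.1], by linarith [this.2]⟩
  refine ⟨?_, ?_⟩
  · -- the mass of the neighbourhoods
    have hl1 : ∀ m', l r m' ≤ 1 := by
      intro m'
      have h1 : √(l r m') ≤ 1 := by
        have h2 : √(l r m') ≤ ∑' m, √(l r m) := (hsum r).le_tsum m' fun _ _ => Real.sqrt_nonneg _
        have h3 : ((1 : ℝ) / 2) ^ r ≤ 1 := pow_le_one₀ (by norm_num) (by norm_num)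
        exact h2.trans ((htsum r).trans h3)
      rwa [Real.sqrt_le_one] at h1
    have h1 : {w : ℝ | w ∈ Ico (0 : ℝ) 1 ∧ pt T m w ∈ ⋃ m', Ioo (pp r m' - l r m') (pp r m' + l r m')} ⊆
        ⋃ m', {w : ℝ | w ∈ Ico (0 : ℝ) 1 ∧ pt T m w ∈ Ioo (pp r m' - l r m') (pp r m' + l r m')} := by
      rintro w ⟨hw, hw2⟩
      rw [mem_iUnion] at hw2 ⊢
      obtain ⟨m', hm'⟩ := hw2
      exact ⟨m', hw, hm'⟩
    refine (measure_mono h1).trans ((measure_iUnion_le _).trans ?_)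
    have h2 : ∀ m', volume {w : ℝ | w ∈ Ico (0 : ℝ) 1 ∧ pt T m w ∈ Ioo (pp r m' - l r m') (pp r m' + l r m')} ≤
        ENNReal.ofReal (D * √(l r m')) := fun m' =>
      mass_int ha haα.le hε.le hε1 hC'0 hCl1 hCm0 hq0.le hq4 hm h0 hn hr' hlen' hmass' (hl r m') (hl1 m')
    refine (ENNReal.tsum_le_tsum h2).trans ?_
    rw [← ENNReal.ofReal_tsum_of_nonneg (fun m' => by positivity) ((hsum r).mul_left D), tsum_mul_left]
    refine ENNReal.ofReal_le_ofReal ?_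
    calc D * ∑' m', √(l r m') ≤ D * (1 / 2) ^ r := mul_le_mul_of_nonneg_left (htsum r) hD0
      _ ≤ _ := mul_le_mul_of_nonneg_right (by linarith) (by positivity)
  intro h hh j J L
  set Hb : ℕ := H + r with hHb
  set Ph : ℝ := max 1 (C₁ r) * (((Hb : ℝ) + 1) * Cr r) ^ p with hPh
  have hKb : (1 : ℝ) ≤ (Hb : ℝ) + 1 := by linarith [(Nat.cast_nonneg Hb : (0 : ℝ) ≤ Hb)]
  have hCr0 : 0 < Cr r := by linarith [hCr1 r]
  have hPh1 : 1 ≤ Ph := by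
    have h1 : 1 ≤ (((Hb : ℝ) + 1) * Cr r) ^ p := Real.one_le_rpow (one_le_mul_of_one_le_of_one_le hKb (hCr1 r)) hp0
    exact one_le_mul_of_one_le_of_one_le (le_max_left _ _) h1
  set Y : Set ℝ := ⋃ m, Ioo (pp r m - l r m) (pp r m + l r m) with hYd
  -- one string
  have hstr : ∀ t : ℕ, ∀ β ∈ Z Hb t, ENNReal.ofReal (wJ H c h j β) *
      ∫⁻ w in {w : ℝ | w ∈ Ico (0 : ℝ) 1 ∧ pt T m w ∉ Y}, ENNReal.ofReal (cut ((a ^ J)⁻¹) (fz β (pt T m w))) ≤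
      ENNReal.ofReal (wJ H c h j β * ((P + 1) * Ph * (rt ^ t * rJ ^ J))) := by
    intro t β hβ
    by_cases hw : wJ H c h j β = 0
    · rw [hw]; simp
    rw [ENNReal.ofReal_mul (wJ_nonneg H c h j β)]
    refine mul_le_mul_right ?_ _
    refine (string_int (X := ((Hb : ℝ) + 1) * Cr r * Cl' * ((1 + ε) * b) ^ t * a ^ ((J : ℝ) / 2)) ha hab haα.le (hSub r)
      (hCrε r) (hCr1 r) (hCrζ r) hε hC'0 hCl1 hCm0 hm hT h0 hn hr' hlen' hmass' hY hh hβ hw rfl).trans ?_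
    rw [← ENNReal.ofReal_mul (by positivity), ← ENNReal.ofReal_add (by have := (hC₁0 r).le; positivity) (by positivity)]
    refine ENNReal.ofReal_le_ofReal ?_
    rw [alg_one (κ := κ) (q := q) (p := p) (Cm := Cm') (C := C') (C₁ := C₁ r) ha0 hb0 hε (by linarith) hCr0 rfl]
    have h2 : a ^ (-((t : ℝ) + J) / 2) ≤ rt ^ t * rJ ^ J := by
      have h3 : a ^ (-((t : ℝ) + J) / 2) = (a ^ (-(1 : ℝ) / 2)) ^ t * (a ^ (-(1 : ℝ) / 2)) ^ J := by
        rw [← pow_add, ← Real.rpow_natCast, ← Real.rpow_mul ha0.le]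
        congr 1
        push_cast
        ring
      rw [h3]
      have h4 : 0 < a ^ (-(1 : ℝ) / 2) := by positivity
      gcongr
    have h3 : C₁ r * (((Hb : ℝ) + 1) * Cr r) ^ p ≤ Ph := by
      rw [hPh]
      gcongr
      exact le_max_right _ _
    have h4 : 0 < rt ^ t * rJ ^ J := by positivity
    calc P * (C₁ r * (((Hb : ℝ) + 1) * Cr r) ^ p) * (rt ^ t * rJ ^ J) + a ^ (-((t : ℝ) + J) / 2)
        ≤ P * Ph * (rt ^ t * rJ ^ J) + 1 * Ph * (rt ^ t * rJ ^ J) := by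
          refine add_le_add (by gcongr) (h2.trans ?_)
          rw [one_mul]
          exact le_mul_of_one_le_left h4.le hPh1
      _ = _ := by ring
  -- one length
  have hmeas : ∀ (t : ℕ) (β : Fin (t + 1) → ℤ), Measurable fun w : ℝ => ENNReal.ofReal (cut ((a ^ J)⁻¹) (fz β (pt T m w))) :=
    fun t β => ((((continuous_cut (by positivity)).comp (continuous_fz β)).measurable).comp
      (pt_mono (T := T) (m := m)).measurable).ennreal_ofReal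
  have hQ0 : ∀ (t : ℕ) (x : ℝ), 0 ≤ QJ a H Hb c h j J t x := fun t x => by
    unfold QJ
    exact Finset.sum_nonneg fun β _ => mul_nonneg (wJ_nonneg H c h j β) (cut_nonneg (by positivity) _)
  have hQ : ∀ (t : ℕ) (w : ℝ), ENNReal.ofReal (QJ a H Hb c h j J t (pt T m w)) =
      ∑ β ∈ Z Hb t, ENNReal.ofReal (wJ H c h j β) * ENNReal.ofReal (cut ((a ^ J)⁻¹) (fz β (pt T m w))) := by
    intro t w
    have h1 : QJ a H Hb c h j J t (pt T m w) = ∑ β ∈ Z Hb t, wJ H c h j β * cut ((a ^ J)⁻¹) (fz β (pt T m w)) := rfl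
    rw [h1, ENNReal.ofReal_sum_of_nonneg fun β _ => mul_nonneg (wJ_nonneg H c h j β) (cut_nonneg (by positivity) _)]
    exact Finset.sum_congr rfl fun β _ => ENNReal.ofReal_mul (wJ_nonneg H c h j β)
  have hlen1 : ∀ t : ℕ, ∫⁻ w in {w : ℝ | w ∈ Ico (0 : ℝ) 1 ∧ pt T m w ∉ Y}, ENNReal.ofReal (QJ a H Hb c h j J t (pt T m w)) ≤
      ENNReal.ofReal (W * (P + 1) * Ph * rJ ^ J * (W * rt) ^ t) := by
    intro t
    simp_rw [hQ]
    rw [lintegral_finsetSum _ fun β _ => (hmeas t β).const_mul _]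
    have h1 : ∀ β ∈ Z Hb t, ∫⁻ w in {w : ℝ | w ∈ Ico (0 : ℝ) 1 ∧ pt T m w ∉ Y}, ENNReal.ofReal (wJ H c h j β) *
        ENNReal.ofReal (cut ((a ^ J)⁻¹) (fz β (pt T m w))) ≤
        ENNReal.ofReal (wJ H c h j β * ((P + 1) * Ph * (rt ^ t * rJ ^ J))) := by
      intro β hβ
      rw [lintegral_const_mul _ (hmeas t β)]
      exact hstr t β hβ
    refine (Finset.sum_le_sum h1).trans ?_
    rw [← ENNReal.ofReal_sum_of_nonneg fun β _ => mul_nonneg (wJ_nonneg H c h j β) (by positivity), ← Finset.sum_mul]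
    refine ENNReal.ofReal_le_ofReal ?_
    calc (∑ β ∈ Z Hb t, wJ H c h j β) * ((P + 1) * Ph * (rt ^ t * rJ ^ J)) ≤
        W ^ (t + 1) * ((P + 1) * Ph * (rt ^ t * rJ ^ J)) :=
          mul_le_mul_of_nonneg_right (sum_wJ H Hb c h j t) (by positivity)
      _ = _ := by rw [mul_pow, pow_succ]; ring
  have hsum' : ∀ w : ℝ, ENNReal.ofReal (∑ t ∈ Finset.range L, QJ a H Hb c h j J t (pt T m w)) =
      ∑ t ∈ Finset.range L, ENNReal.ofReal (QJ a H Hb c h j J t (pt T m w)) := fun w =>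
    ENNReal.ofReal_sum_of_nonneg fun t _ => hQ0 t _
  simp_rw [hsum']
  have hmeasQ : ∀ t : ℕ, Measurable fun w : ℝ => ENNReal.ofReal (QJ a H Hb c h j J t (pt T m w)) := by
    intro t
    simp_rw [hQ]
    exact Finset.measurable_sum _ fun β _ => (hmeas t β).const_mul _
  rw [lintegral_finsetSum _ fun t _ => hmeasQ t]
  refine (Finset.sum_le_sum fun t _ => hlen1 t).trans ?_
  have hWrt0 : 0 ≤ W * rt := by positivity
  rw [← ENNReal.ofReal_sum_of_nonneg fun t _ => by positivity, ← Finset.mul_sum]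
  refine ENNReal.ofReal_le_ofReal ?_
  have hgeo : ∑ t ∈ Finset.range L, (W * rt) ^ t ≤ (1 - W * rt)⁻¹ := by
    rw [← tsum_geometric_of_lt_one hWrt0 hWr]
    exact (summable_geometric_of_lt_one hWrt0 hWr).sum_le_tsum _ fun t _ => pow_nonneg hWrt0 t
  have hZ0 : 0 ≤ W * (P + 1) * Ph * rJ ^ J := by positivity
  have e9 : W * (P + 1) / (1 - W * rt) * Ph * rJ ^ J = W * (P + 1) * Ph * rJ ^ J * (1 - W * rt)⁻¹ := by
    rw [div_eq_mul_inv]; ring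
  calc W * (P + 1) * Ph * rJ ^ J * ∑ t ∈ Finset.range L, (W * rt) ^ t
      ≤ W * (P + 1) * Ph * rJ ^ J * (1 - W * rt)⁻¹ := mul_le_mul_of_nonneg_left hgeo hZ0
    _ = W * (P + 1) / (1 - W * rt) * Ph * rJ ^ J := e9.symm
    _ ≤ (W * (P + 1) / (1 - W * rt) + D) * Ph * rJ ^ J := by
        have : 0 ≤ Ph * rJ ^ J := by positivity
        nlinarith

end Pool.Agent.Helper44.GJ
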